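import Mathlib
import Pool.Agent.H19.Large

set_option autoImplicit false

namespace Pool.Agent.Results.MP_e349a0_al.Aleph1Large

universe u

open scoped Pointwise
open Pool.Agent.H19.Large

/-- Every infinite group `G` has a partition into exactly `|G|` cells, each of which is both left
and right `ℵ₁`-large. -/
theorem result (G : Type u) [Group G] [Infinite G] :
    ∃ P : Set (Set G), Setoid.IsPartition P ∧ Cardinal.mk P = Cardinal.mk G ∧
      ∀ A ∈ P,
        (∃ F : Set G, Cardinal.mk F < Cardinal.aleph 1 ∧ F * A = Set.univ) ∧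
        (∃ F : Set G, Cardinal.mk F < Cardinal.aleph 1 ∧ A * F = Set.univ) := by
  have key : ∃ (J : Type u) (χ : G → J), Cardinal.mk J = Cardinal.mk G ∧ ∀ j,
      (∃ F : Set G, F.Countable ∧ ∀ g, ∃ f ∈ F, ∃ a, χ a = j ∧ g = f * a) ∧
      (∃ F : Set G, F.Countable ∧ ∀ g, ∃ f ∈ F, ∃ a, χ a = j ∧ g = a * f) := by
    rcases (Cardinal.aleph0_le_mk G).eq_or_lt with h0 | h0
    · have : Countable G := Cardinal.mk_le_aleph0_iff.mp h0.ge
      exact ⟨G, id, rfl, fun j =>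
        ⟨⟨Set.univ, Set.countable_univ, fun g => ⟨g * j⁻¹, trivial, j, rfl, by simp⟩⟩,
         ⟨Set.univ, Set.countable_univ, fun g => ⟨j⁻¹ * g, trivial, j, rfl, by simp⟩⟩⟩⟩
    · exact uncountable_case G h0
  obtain ⟨J, χ, hJ, h⟩ := key
  obtain ⟨P, h1, h2, h3⟩ := assemble' (Cardinal.aleph 1) χ (fun j => by
    obtain ⟨⟨F, a1, a2⟩, ⟨F', a3, a4⟩⟩ := h j
    exact ⟨⟨F, (Cardinal.countable_iff_lt_aleph_one F).mp a1, a2⟩,
      ⟨F', (Cardinal.countable_iff_lt_aleph_one F').mp a3, a4⟩⟩)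
  exact ⟨P, h1, h2.trans hJ, h3⟩

end Pool.Agent.Results.MP_e349a0_al.Aleph1Large
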